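import Pool.Agent.Helper82.BR.St3

/-!
# Project BR8, module GP
-/

set_option autoImplicit false

namespace Pool.Agent.Helper98.BR

open Pool.Agent.Helper82.BR

theorem prim {w : ℂ} (hw : w ^ 2 = w - 1) : IsPrimitiveRoot w 6 := by
  have h3 : w ^ 3 = -1 := by linear_combination (w + 1) * hw
  have h0 : w ≠ 0 := by
    rintro rfl
    norm_num at h3
  have h1 : w ≠ 1 := by
    rintro rfl
    norm_num at hw
  apply IsPrimitiveRoot.mk_of_lt w (by norm_num)
  · linear_combination (w ^ 3 - 1) * h3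
  · intro l hl hl6 h
    interval_cases l
    · exact h1 (by simpa using h)
    · have h2 : w = 2 := by linear_combination h - hw
      rw [h2] at hw
      norm_num at hw
    · rw [h3] at h
      norm_num at h
    · have h2 : w = -1 := by linear_combination w * h3 - h
      rw [h2] at hw
      norm_num at hw
    · apply h1
      linear_combination (w ^ 3 - 1) * h3 - w * h

/-- the powers `a w ^ j`, `j < n` -/
noncomputable def fam (w a : ℂ) (n : ℕ) : Finset ℂ := (Finset.range n).image (fun j => a * w ^ j)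

theorem card_fam {w a : ℂ} (hp : IsPrimitiveRoot w 6) (ha : a ≠ 0) {n : ℕ} (hn : n ≤ 6) :
    (fam w a n).card = n := by
  unfold fam
  rw [Finset.card_image_of_injOn, Finset.card_range]
  intro i hi j hj h
  simp only [Finset.coe_range, Set.mem_Iio] at hi hj
  exact hp.pow_inj (by omega) (by omega) (mul_left_cancel₀ ha h)

theorem mem_fam {w a x : ℂ} {n : ℕ} : x ∈ fam w a n ↔ ∃ j < n, a * w ^ j = x := by
  simp [fam]

/-- cancellation in the group of the sixth roots of unity -/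
theorem canc {w a b : ℂ} (h6 : w ^ 6 = 1) {i j : ℕ} (h : a * w ^ i = b * w ^ j) :
    a = b * w ^ (j + 5 * i) := by
  have h1 : w ^ i * w ^ (5 * i) = 1 := by
    rw [← pow_add, show i + 5 * i = 6 * i by ring, pow_mul, h6, one_pow]
  calc a = a * (w ^ i * w ^ (5 * i)) := by rw [h1, mul_one]
    _ = (a * w ^ i) * w ^ (5 * i) := by ring
    _ = b * w ^ (j + 5 * i) := by rw [h]; ring

theorem disj {w a b : ℂ} (h6 : w ^ 6 = 1) (hab : ∀ k : ℕ, a ≠ b * w ^ k) (m n : ℕ) :
    Disjoint (fam w a m) (fam w b n) := by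
  rw [Finset.disjoint_left]
  intro x hx hx'
  obtain ⟨i, -, h1⟩ := mem_fam.1 hx
  obtain ⟨j, -, h2⟩ := mem_fam.1 hx'
  exact hab _ (canc h6 (h1.trans h2.symm))

/-- the equation for one exponent gives all -/
theorem notin {w R : ℂ} (hw : w ^ 2 = w - 1) (h0 : R ≠ 1) (h1 : R ≠ w) (h2 : R ≠ w ^ 2)
    (h3 : R ≠ -1) (h4 : R ≠ -w) (h5 : R ≠ -w ^ 2) (k : ℕ) : R ≠ 1 * w ^ k := by
  have h6 := (prim hw).pow_eq_one
  have e3 : w ^ 3 = -1 := by linear_combination (w + 1) * hw
  rw [one_mul, ← Nat.mod_add_div k 6, pow_add, pow_mul, h6, one_pow, mul_one]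
  have hk : k % 6 < 6 := Nat.mod_lt _ (by norm_num)
  generalize k % 6 = m at hk
  interval_cases m
  · simpa using h0
  · simpa using h1
  · exact h2
  · rw [e3]
    exact h3
  · rw [show w ^ 4 = w ^ 3 * w by ring, e3]
    simpa using h4
  · rw [show w ^ 5 = w ^ 3 * w ^ 2 by ring, e3]
    simpa using h5

theorem pair8 {D : Finset ℂ} {w u v : ℂ} (hw : w ^ 2 = w - 1) (hD : D.card ≤ 7) (hu : u ≠ 0)
    (hv : v ≠ 0) (huv : ∀ k : ℕ, v ≠ u * w ^ k) (h1 : ∀ j < 5, u * w ^ j ∈ D)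
    (h2 : ∀ j < 3, v * w ^ j ∈ D) : False := by
  have hp := prim hw
  have h3 : fam w v 3 ∪ fam w u 5 ⊆ D := by
    apply Finset.union_subset
    · intro x hx
      obtain ⟨j, hj, rfl⟩ := mem_fam.1 hx
      exact h2 j hj
    · intro x hx
      obtain ⟨j, hj, rfl⟩ := mem_fam.1 hx
      exact h1 j hj
  have h4 := Finset.card_le_card h3
  rw [Finset.card_union_of_disjoint (disj hp.pow_eq_one huv 3 5), card_fam hp hv (by norm_num),
    card_fam hp hu (by norm_num)] at h4
  omega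

theorem chain {D : Finset ℂ} {w Q R : ℂ} (hw : w ^ 2 = w - 1) (hD : D.card ≤ 7)
    (h1 : (1 : ℂ) ∈ D) (hw1 : w ∈ D) (hw2 : w ^ 2 ∈ D) (hQ : Q ∈ D) (hQw : Q * w ∈ D)
    (hR : R ∈ D) (hRw : R * w ∈ D) (hQQ : Q ^ 2 ∈ D) (hQR : Q * R ∈ D) (hR0 : R ≠ 0)
    (r1 : R ≠ 1) (r2 : R ≠ w) (r3 : R ≠ -1) (r4 : R ≠ -w) (hne : Q ≠ R) (hne' : Q ≠ -R) :
    Q ≠ w ^ 2 ∧ Q ≠ -w ^ 2 := by
  have e3 : w ^ 3 = -1 := by linear_combination (w + 1) * hw
  have e6 := (prim hw).pow_eq_one
  have hw0 : w ≠ 0 := by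
    rintro rfl
    norm_num at e3
  refine ⟨?_, ?_⟩
  · rintro rfl
    refine pair8 hw hD (u := 1) (v := R) one_ne_zero hR0
      (notin hw r1 r2 (fun h => hne h.symm) r3 r4 (fun h => hne' (by rw [h, neg_neg]))) ?_ ?_
    · intro j hj
      interval_cases j
      · simpa using h1
      · simpa using hw1
      · simpa using hw2
      · rw [show (1 : ℂ) * w ^ 3 = w ^ 2 * w by ring]
        exact hQw
      · rw [show (1 : ℂ) * w ^ 4 = (w ^ 2) ^ 2 by ring]
        exact hQQ
    · intro j hj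
      interval_cases j
      · simpa using hR
      · simpa using hRw
      · rw [mul_comm]
        exact hQR
  · intro hq
    have q5 : Q = w ^ 5 := by
      rw [hq]
      linear_combination (-w ^ 2) * e3
    refine pair8 hw hD (u := w ^ 4) (v := R * w ^ 5) (pow_ne_zero _ hw0)
      (mul_ne_zero hR0 (pow_ne_zero _ hw0)) ?_ ?_ ?_
    · intro k h
      have h2 : R * w ^ 5 = 1 * w ^ (4 + k) := by
        rw [h]
        ring
      exact notin hw r1 r2 (fun h => hne' (by rw [hq, h])) r3 r4 (fun h => hne (by rw [hq, h])) _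
        (canc e6 h2)
    · intro j hj
      interval_cases j
      · rw [show w ^ 4 * w ^ 0 = Q ^ 2 by rw [q5]; linear_combination (-w ^ 4) * e6]
        exact hQQ
      · rw [show w ^ 4 * w ^ 1 = Q by rw [q5]; ring]
        exact hQ
      · rw [show w ^ 4 * w ^ 2 = 1 by linear_combination e6]
        exact h1
      · rw [show w ^ 4 * w ^ 3 = w by linear_combination w * e6]
        exact hw1
      · rw [show w ^ 4 * w ^ 4 = w ^ 2 by linear_combination w ^ 2 * e6]
        exact hw2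
    · intro j hj
      interval_cases j
      · rw [show R * w ^ 5 * w ^ 0 = Q * R by rw [q5]; ring]
        exact hQR
      · rw [show R * w ^ 5 * w ^ 1 = R by linear_combination R * e6]
        exact hR
      · rw [show R * w ^ 5 * w ^ 2 = R * w by linear_combination (R * w) * e6]
        exact hRw

theorem caseA {D : Finset ℂ} {w Q : ℂ} (hw : w ^ 2 = w - 1) (hD : D.card ≤ 7)
    (h1 : (1 : ℂ) ∈ D) (hw1 : w ∈ D) (hw2 : w ^ 2 ∈ D) (hQ : Q ∈ D) (hQw : Q * w ∈ D)
    (hQw2 : Q * w ^ 2 ∈ D) (hQQ : Q ^ 2 ∈ D) (hQQw : Q ^ 2 * w ∈ D) (hQ0 : Q ≠ 0)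
    (hn : ∀ k : ℕ, Q ≠ 1 * w ^ k) : Q ^ 2 = w ∨ Q ^ 2 * w = 1 := by
  have hp := prim hw
  have e6 := hp.pow_eq_one
  have e3 : w ^ 3 = -1 := by linear_combination (w + 1) * hw
  have hw0 : w ≠ 0 := by
    rintro rfl
    norm_num at e3
  by_contra hc
  push Not at hc
  obtain ⟨c1, c2⟩ := hc
  have s1 : Q ^ 2 ≠ 1 := by
    intro h
    rcases sq_eq_sq_iff_eq_or_eq_neg.1 (h.trans (one_pow 2).symm) with h | h
    · exact hn 0 (by simpa using h)
    · exact hn 3 (by rw [h, e3]; ring)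
  have s2 : Q ^ 2 ≠ w ^ 2 := by
    intro h
    rcases sq_eq_sq_iff_eq_or_eq_neg.1 h with h | h
    · exact hn 1 (by rw [h]; ring)
    · exact hn 4 (by rw [h]; linear_combination (-w) * e3)
  have hd13 : Disjoint (fam w 1 3) (fam w (Q ^ 2) 2) := by
    rw [Finset.disjoint_left]
    intro x hx hx'
    obtain ⟨i, hi, h3⟩ := mem_fam.1 hx
    obtain ⟨j, hj, h4⟩ := mem_fam.1 hx'
    have h5 : Q ^ 2 * w ^ j = 1 * w ^ i := h4.trans h3.symm
    interval_cases j <;> interval_cases i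
    · exact s1 (by linear_combination h5)
    · exact c1 (by linear_combination h5)
    · exact s2 (by linear_combination h5)
    · exact c2 (by linear_combination h5)
    · exact s1 (mul_right_cancel₀ hw0 (by linear_combination h5))
    · exact c1 (mul_right_cancel₀ hw0 (by linear_combination h5))
  have hd12 : Disjoint (fam w 1 3) (fam w Q 3) := (disj e6 hn 3 3).symm
  have hd23 : Disjoint (fam w Q 3) (fam w (Q ^ 2) 2) := by
    refine (disj e6 (fun k h => ?_) 2 3).symm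
    exact hn k (mul_left_cancel₀ hQ0 (by linear_combination h))
  have h3 : (fam w 1 3 ∪ fam w Q 3) ∪ fam w (Q ^ 2) 2 ⊆ D := by
    refine Finset.union_subset (Finset.union_subset ?_ ?_) ?_
    · intro x hx
      obtain ⟨j, hj, rfl⟩ := mem_fam.1 hx
      interval_cases j
      · simpa using h1
      · simpa using hw1
      · simpa using hw2
    · intro x hx
      obtain ⟨j, hj, rfl⟩ := mem_fam.1 hx
      interval_cases j
      · simpa using hQ
      · simpa using hQw
      · simpa using hQw2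
    · intro x hx
      obtain ⟨j, hj, rfl⟩ := mem_fam.1 hx
      interval_cases j
      · simpa using hQQ
      · simpa using hQQw
  have h4 := Finset.card_le_card h3
  rw [Finset.card_union_of_disjoint (Finset.disjoint_union_left.2 ⟨hd13, hd23⟩),
    Finset.card_union_of_disjoint hd12, card_fam hp one_ne_zero (by norm_num),
    card_fam hp hQ0 (by norm_num), card_fam hp (pow_ne_zero 2 hQ0) (by norm_num)] at h4
  omega

theorem core {D : Finset ℂ} {w Q R : ℂ} (hw : w ^ 2 = w - 1) (hD : D.card ≤ 7)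
    (h1 : (1 : ℂ) ∈ D) (hw1 : w ∈ D) (hw2 : w ^ 2 ∈ D) (hQ : Q ∈ D) (hQw : Q * w ∈ D)
    (hR : R ∈ D) (hRw : R * w ∈ D) (hQQ : Q ^ 2 ∈ D) (hRR : R ^ 2 ∈ D) (hQR : Q * R ∈ D)
    (hQ0 : Q ≠ 0) (hR0 : R ≠ 0)
    (q1 : Q ≠ 1) (q2 : Q ≠ w) (q3 : Q ≠ -1) (q4 : Q ≠ -w)
    (r1 : R ≠ 1) (r2 : R ≠ w) (r3 : R ≠ -1) (r4 : R ≠ -w) (hne : Q ≠ R) (hne' : Q ≠ -R) :
    (Q ^ 2 = w ∧ R = Q * w) ∨ (Q ^ 2 * w = 1 ∧ R = Q * w) ∨
    (R ^ 2 = w ∧ Q = R * w) ∨ (R ^ 2 * w = 1 ∧ Q = R * w) ∨
    (Q ^ 3 = w ∧ R = Q ^ 2) ∨ (R ^ 3 = w ∧ Q = R ^ 2) := by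
  have hp := prim hw
  have e6 := hp.pow_eq_one
  have e3 : w ^ 3 = -1 := by linear_combination (w + 1) * hw
  have hw0 : w ≠ 0 := by
    rintro rfl
    norm_num at e3
  obtain ⟨q5, q6⟩ := chain hw hD h1 hw1 hw2 hQ hQw hR hRw hQQ hQR hR0 r1 r2 r3 r4 hne hne'
  obtain ⟨r5, r6⟩ := chain hw hD h1 hw1 hw2 hR hRw hQ hQw hRR (by rwa [mul_comm]) hQ0 q1 q2 q3 q4
    hne.symm (fun h => hne' (by rw [h, neg_neg]))
  have nQ := notin hw q1 q2 q5 q3 q4 q6
  have nR := notin hw r1 r2 r5 r3 r4 r6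
  by_cases ha : R = Q * w
  · subst ha
    rcases caseA hw hD h1 hw1 hw2 hQ hQw (by rw [show Q * w ^ 2 = Q * w * w by ring]; exact hRw)
      hQQ (by rw [show Q ^ 2 * w = Q * (Q * w) by ring]; exact hQR) hQ0 nQ with h | h
    · exact Or.inl ⟨h, rfl⟩
    · exact Or.inr (Or.inl ⟨h, rfl⟩)
  by_cases hb : Q = R * w
  · subst hb
    rcases caseA hw hD h1 hw1 hw2 hR hRw (by rw [show R * w ^ 2 = R * w * w by ring]; exact hQw)
      hRR (by rw [show R ^ 2 * w = R * w * R by ring]; exact hQR) hR0 nR with h | h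
    · exact Or.inr (Or.inr (Or.inl ⟨h, rfl⟩))
    · exact Or.inr (Or.inr (Or.inr (Or.inl ⟨h, rfl⟩)))
  -- now `D` is known
  have hd12 : Disjoint (fam w 1 3) (fam w Q 2) := (disj e6 nQ 2 3).symm
  have hd13 : Disjoint (fam w 1 3) (fam w R 2) := (disj e6 nR 2 3).symm
  have hd23 : Disjoint (fam w Q 2) (fam w R 2) := by
    rw [Finset.disjoint_left]
    intro x hx hx'
    obtain ⟨i, hi, h3⟩ := mem_fam.1 hx
    obtain ⟨j, hj, h4⟩ := mem_fam.1 hx'
    have h5 : Q * w ^ i = R * w ^ j := h3.trans h4.symm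
    interval_cases j <;> interval_cases i
    · exact hne (by linear_combination h5)
    · exact ha (by linear_combination -h5)
    · exact hb (by linear_combination h5)
    · exact hne (mul_right_cancel₀ hw0 (by linear_combination h5))
  have h3 : (fam w 1 3 ∪ fam w Q 2) ∪ fam w R 2 ⊆ D := by
    refine Finset.union_subset (Finset.union_subset ?_ ?_) ?_
    · intro x hx
      obtain ⟨j, hj, rfl⟩ := mem_fam.1 hx
      interval_cases j
      · simpa using h1
      · simpa using hw1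
      · simpa using hw2
    · intro x hx
      obtain ⟨j, hj, rfl⟩ := mem_fam.1 hx
      interval_cases j
      · simpa using hQ
      · simpa using hQw
    · intro x hx
      obtain ⟨j, hj, rfl⟩ := mem_fam.1 hx
      interval_cases j
      · simpa using hR
      · simpa using hRw
  have h4 : (fam w 1 3 ∪ fam w Q 2) ∪ fam w R 2 = D := by
    apply Finset.eq_of_subset_of_card_le h3
    rw [Finset.card_union_of_disjoint (Finset.disjoint_union_left.2 ⟨hd13, hd23⟩),
      Finset.card_union_of_disjoint hd12, card_fam hp one_ne_zero (by norm_num),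
      card_fam hp hQ0 (by norm_num), card_fam hp hR0 (by norm_num)]
    exact hD
  have hmem : ∀ x ∈ D, x = 1 ∨ x = w ∨ x = w ^ 2 ∨ x = Q ∨ x = Q * w ∨ x = R ∨ x = R * w := by
    intro x hx
    rw [← h4, Finset.mem_union, Finset.mem_union] at hx
    rcases hx with (hx | hx) | hx
    · obtain ⟨j, hj, rfl⟩ := mem_fam.1 hx
      interval_cases j <;> simp
    · obtain ⟨j, hj, rfl⟩ := mem_fam.1 hx
      interval_cases j <;> simp
    · obtain ⟨j, hj, rfl⟩ := mem_fam.1 hx
      interval_cases j <;> simp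
  have sq : ∀ X : ℂ, X ≠ 0 → (∀ k : ℕ, X ≠ 1 * w ^ k) →
      X ^ 2 ≠ 1 ∧ X ^ 2 ≠ w ^ 2 ∧ X ^ 2 ≠ X ∧ X ^ 2 ≠ X * w := by
    intro X hX0 hn
    refine ⟨?_, ?_, ?_, ?_⟩
    · intro h
      rcases sq_eq_sq_iff_eq_or_eq_neg.1 (h.trans (one_pow 2).symm) with h | h
      · exact hn 0 (by simpa using h)
      · exact hn 3 (by rw [h, e3]; ring)
    · intro h
      rcases sq_eq_sq_iff_eq_or_eq_neg.1 h with h | h
      · exact hn 1 (by rw [h]; ring)
      · exact hn 4 (by rw [h]; linear_combination (-w) * e3)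
    · intro h
      exact hn 0 (mul_left_cancel₀ hX0 (by linear_combination h))
    · intro h
      exact hn 1 (mul_left_cancel₀ hX0 (by linear_combination h))
  have mQ : Q ^ 2 = w ∨ Q ^ 2 = R ∨ Q ^ 2 = R * w := by
    obtain ⟨a1, a2, a3, a4⟩ := sq Q hQ0 nQ
    rcases hmem _ hQQ with h | h | h | h | h | h | h
    · exact absurd h a1
    · exact Or.inl h
    · exact absurd h a2
    · exact absurd h a3
    · exact absurd h a4
    · exact Or.inr (Or.inl h)
    · exact Or.inr (Or.inr h)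
  have mR : R ^ 2 = w ∨ R ^ 2 = Q ∨ R ^ 2 = Q * w := by
    obtain ⟨a1, a2, a3, a4⟩ := sq R hR0 nR
    rcases hmem _ hRR with h | h | h | h | h | h | h
    · exact absurd h a1
    · exact Or.inl h
    · exact absurd h a2
    · exact Or.inr (Or.inl h)
    · exact Or.inr (Or.inr h)
    · exact absurd h a3
    · exact absurd h a4
  have mQR : ∃ j : ℕ, Q * R = w ^ j := by
    rcases hmem _ hQR with h | h | h | h | h | h | h
    · exact ⟨0, by simpa using h⟩
    · exact ⟨1, by simpa using h⟩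
    · exact ⟨2, h⟩
    · exact absurd (mul_left_cancel₀ hQ0 (by linear_combination h) : R = 1) r1
    · exact absurd (mul_left_cancel₀ hQ0 (by linear_combination h) : R = w) r2
    · exact absurd (mul_left_cancel₀ hR0 (by linear_combination h) : Q = 1) q1
    · exact absurd (mul_left_cancel₀ hR0 (by linear_combination h) : Q = w) q2
  obtain ⟨j, hj⟩ := mQR
  rcases mQ with h | h | h <;> rcases mR with g | g | g
  · -- Q² = w = R²
    exfalso
    rcases sq_eq_sq_iff_eq_or_eq_neg.1 (h.trans g.symm) with h' | h'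
    · exact hne h'
    · exact hne' h'
  · -- Q² = w, R² = Q
    exfalso
    refine nR _ (canc e6 (i := j) (j := 1) ?_)
    rw [← hj]
    linear_combination Q * g + h
  · -- Q² = w, R² = Q w
    exfalso
    refine nR _ (canc e6 (i := j + 1) (j := 3) ?_)
    rw [pow_succ, ← hj]
    linear_combination (Q * w) * g + w ^ 2 * h
  · -- Q² = R, R² = w
    exfalso
    refine nQ _ (canc e6 (i := j) (j := 1) ?_)
    rw [← hj]
    linear_combination R * h + g
  · -- Q² = R, R² = Q
    exfalso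
    have h5 : Q ^ 3 = 1 := mul_left_cancel₀ hQ0 (by linear_combination (Q ^ 2 + R) * h + g)
    have h6 : (Q - 1) * ((Q - w ^ 2) * (Q - w ^ 4)) = 0 := by
      linear_combination h5 + (-(w ^ 2 + w + 1) * Q ^ 2 + w ^ 2 * (w ^ 2 + w + 1) * Q) * hw - e6
    rcases mul_eq_zero.1 h6 with h7 | h7
    · exact nQ 0 (by linear_combination h7)
    rcases mul_eq_zero.1 h7 with h7 | h7
    · exact nQ 2 (by linear_combination h7)
    · exact nQ 4 (by linear_combination h7)
  · -- Q² = R, R² = Q w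
    refine Or.inr (Or.inr (Or.inr (Or.inr (Or.inl ⟨?_, h.symm⟩))))
    exact mul_left_cancel₀ hQ0 (by linear_combination (Q ^ 2 + R) * h + g)
  · -- Q² = R w, R² = w
    exfalso
    refine nQ _ (canc e6 (i := j + 1) (j := 3) ?_)
    rw [pow_succ, ← hj]
    linear_combination (R * w) * h + w ^ 2 * g
  · -- Q² = R w, R² = Q
    refine Or.inr (Or.inr (Or.inr (Or.inr (Or.inr ⟨?_, g.symm⟩))))
    exact mul_left_cancel₀ hR0 (by linear_combination (R ^ 2 + Q) * g + h)
  · -- Q² = R w, R² = Q w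
    exfalso
    have h5 : Q ^ 3 = w ^ 3 :=
      mul_left_cancel₀ hQ0 (by linear_combination (Q ^ 2 + R * w) * h + w ^ 2 * g)
    have h6 : (Q - w) * ((Q - w ^ 3) * (Q - w ^ 5)) = 0 := by
      linear_combination h5 + (-w * (w ^ 2 + w + 1) * Q ^ 2 + w ^ 4 * (w ^ 2 + w + 1) * Q) * hw -
        w ^ 3 * e6
    rcases mul_eq_zero.1 h6 with h7 | h7
    · exact nQ 1 (by linear_combination h7)
    rcases mul_eq_zero.1 h7 with h7 | h7
    · exact nQ 3 (by linear_combination h7)
    · exact nQ 5 (by linear_combination h7)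

/-- **Module GP.** -/
theorem hGP : StGP := by
  classical
  intro D w p q r hw hD hp hq hr hmul hneg hqp hqpw hrp hrpw hqr
  set D' : Finset ℂ := D.image (fun z => z / p ^ 2) with hD'
  have hc : D'.card ≤ 7 := Finset.card_image_le.trans hD
  have hp2 : p ^ 2 ≠ 0 := pow_ne_zero 2 hp
  have hmem : ∀ x ∈ ({p, p * w, q, r} : Finset ℂ), ∀ y ∈ ({p, p * w, q, r} : Finset ℂ), ∀ z,
      z * p ^ 2 = x * y → z ∈ D' := by
    intro x hx y hy z hz
    rw [hD', Finset.mem_image]
    refine ⟨x * y, hmul x hx y hy, ?_⟩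
    rw [← hz]
    field_simp
  have m1 : p ∈ ({p, p * w, q, r} : Finset ℂ) := by simp
  have m2 : p * w ∈ ({p, p * w, q, r} : Finset ℂ) := by simp
  have m3 : q ∈ ({p, p * w, q, r} : Finset ℂ) := by simp
  have m4 : r ∈ ({p, p * w, q, r} : Finset ℂ) := by simp
  have n1 := hneg p m1
  have n2 := hneg (p * w) m2
  have n3 := hneg q m3
  simp only [Finset.mem_insert, Finset.mem_singleton, not_or] at n1 n2 n3
  obtain ⟨Q, rfl⟩ : ∃ Q, q = p * Q := ⟨q / p, by field_simp⟩
  obtain ⟨R, rfl⟩ : ∃ R, r = p * R := ⟨r / p, by field_simp⟩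
  have hQ0 : Q ≠ 0 := fun h => hq (by rw [h, mul_zero])
  have hR0 : R ≠ 0 := fun h => hr (by rw [h, mul_zero])
  rcases core (Q := Q) (R := R) hw hc (hmem p m1 p m1 _ (by ring))
    (hmem p m1 _ m2 _ (by ring)) (hmem _ m2 _ m2 _ (by ring))
    (hmem p m1 _ m3 _ (by ring)) (hmem _ m2 _ m3 _ (by ring))
    (hmem p m1 _ m4 _ (by ring)) (hmem _ m2 _ m4 _ (by ring))
    (hmem _ m3 _ m3 _ (by ring)) (hmem _ m4 _ m4 _ (by ring)) (hmem _ m3 _ m4 _ (by ring))
    hQ0 hR0 (fun h => hqp (by rw [h, mul_one])) (fun h => hqpw (by rw [h]))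
    (fun h => n1.2.2.1 (by rw [h]; ring)) (fun h => n2.2.2.1 (by rw [h]; ring))
    (fun h => hrp (by rw [h, mul_one])) (fun h => hrpw (by rw [h]))
    (fun h => n1.2.2.2 (by rw [h]; ring)) (fun h => n2.2.2.2 (by rw [h]; ring))
    (fun h => hqr (by rw [h])) (fun h => n3.2.2.2 (by rw [h]; ring))
    with ⟨h1, h2⟩ | ⟨h1, h2⟩ | ⟨h1, h2⟩ | ⟨h1, h2⟩ | ⟨h1, h2⟩ | ⟨h1, h2⟩
  · refine ⟨p, Q, m1, m3, ?_, ?_, Or.inl h1⟩
    · rw [h1]
      exact m2
    · rw [show p * Q ^ 3 = p * R by rw [h2]; linear_combination (p * Q) * h1]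
      exact m4
  · refine ⟨p * Q, Q * w, m3, ?_, ?_, ?_, Or.inl ?_⟩
    · rw [show p * Q * (Q * w) = p by linear_combination p * h1]
      exact m1
    · rw [show p * Q * (Q * w) ^ 2 = p * R by rw [h2]; linear_combination (p * Q * w) * h1]
      exact m4
    · rw [show p * Q * (Q * w) ^ 3 = p * w by linear_combination (p * w * (Q ^ 2 * w + 1)) * h1]
      exact m2
    · linear_combination w * h1
  · refine ⟨p, R, m1, m4, ?_, ?_, Or.inl h1⟩
    · rw [h1]
      exact m2
    · rw [show p * R ^ 3 = p * Q by rw [h2]; linear_combination (p * R) * h1]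
      exact m3
  · refine ⟨p * R, R * w, m4, ?_, ?_, ?_, Or.inl ?_⟩
    · rw [show p * R * (R * w) = p by linear_combination p * h1]
      exact m1
    · rw [show p * R * (R * w) ^ 2 = p * Q by rw [h2]; linear_combination (p * R * w) * h1]
      exact m3
    · rw [show p * R * (R * w) ^ 3 = p * w by linear_combination (p * w * (R ^ 2 * w + 1)) * h1]
      exact m2
    · linear_combination w * h1
  · refine ⟨p, Q, m1, m3, ?_, ?_, Or.inr h1⟩
    · rw [← h2]
      exact m4
    · rw [h1]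
      exact m2
  · refine ⟨p, R, m1, m4, ?_, ?_, Or.inr h1⟩
    · rw [← h2]
      exact m3
    · rw [h1]
      exact m2

end Pool.Agent.Helper98.BR
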